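import Mathlib
import Pool.Agent.H316R3.Tak.Basic
import Pool.Agent.H316R3.Tak.Bad

/-!
# Every even cardinality of a level set of the Takagi function has positive probability
-/

set_option autoImplicit false

open MeasureTheory Set Filter Topology

namespace Pool.Agent.Results.MP_f54a22_an.AllCardinalities

open Pool.Agent.H316R3.Tak

/-- The level set `L(y) = {x ∈ [0,1] : T(x) = y}` of the Takagi function. -/
def L (y : ℝ) : Set ℝ := {x | x ∈ Icc (0 : ℝ) 1 ∧ T x = y}

/-- `S_{2n} = {y ∈ [0,2/3] : |L(y)| = 2n}`. -/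
def S (n : ℕ) : Set ℝ := {y | y ∈ Icc (0 : ℝ) (2 / 3) ∧ (L y).encard = 2 * n}

/-- the sets of the induction -/
def W (n : ℕ) : Set ℝ := {w | w ∈ Ioo (1 / 3 : ℝ) (4 / 3) ∧ N 1 w = n}

lemma pos_of_affine {A B : Set ℝ} {a b : ℝ} (ha : a ≠ 0)
    (h : ∀ x ∈ A, x ≠ 1 → a * x + b ∈ B) (hA : 0 < volume A) : 0 < volume B := by
  rw [pos_iff_ne_zero] at hA ⊢
  intro hB
  apply hA
  have hsub : A ⊆ {1} ∪ (fun x : ℝ => a * x) ⁻¹' ((fun x => x + b) ⁻¹' B) := by
    intro x hx
    by_cases h1 : x = 1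
    · exact Or.inl h1
    · exact Or.inr (h x hx h1)
  refine measure_mono_null hsub (measure_union_null (by simp) ?_)
  rw [Real.volume_preimage_mul_left ha, measure_preimage_add_right, hB, mul_zero]

/-- doubling -/
lemma double {w : ℝ} (h0 : 1 / 3 < w) (h2 : w ≠ 1) :
    N 1 (1 + w / 4) = 2 * N 1 w := by
  have h := (N_down (k := 1) (v := 1 + w / 4) (by norm_num; linarith)).2
  push_cast at h
  rw [h, show (1 : ℝ) - 1 = 0 by norm_num, show 2 * (1 + w / 4) - 1 - 1 = w / 2 by ring,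
    N_zero (by intro h3; apply h2; linarith), show 2 * (w / 2) = w by ring]

lemma base : 0 < volume (W 1) := by
  have h1 := volume_BadU 1
  have hsub : Ioo (1 / 3 : ℝ) 1 ⊆ W 1 ∪ BadU 1 := by
    intro w hw
    by_cases hb : w ∈ BadU 1
    · exact Or.inr hb
    · left
      refine ⟨⟨hw.1, by linarith [hw.2]⟩, ?_⟩
      have := N_eq_one (k := 1) le_rfl (v := w) (by linarith [hw.1]) (by push_cast; exact hw.2.le) hb
      push_cast at this ⊢
      exact this
  by_contra hcon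
  rw [not_lt, nonpos_iff_eq_zero] at hcon
  have h2 := (measure_mono (μ := volume) hsub).trans (measure_union_le _ _)
  rw [hcon, zero_add, Real.volume_Ioo] at h2
  have h3 := h2.trans h1
  rw [ENNReal.ofReal_le_ofReal_iff (by norm_num)] at h3
  norm_num at h3

lemma even_step (n : ℕ) (h : 0 < volume (W n)) : 0 < volume (W (2 * n)) := by
  refine pos_of_affine (a := 1 / 4) (b := 1) (by norm_num) ?_ h
  rintro w ⟨⟨h1, h2⟩, h3⟩ hw
  have e : 1 / 4 * w + 1 = 1 + w / 4 := by ring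
  refine ⟨⟨by linarith, by linarith⟩, ?_⟩
  rw [e, double h1 hw, h3]
  push_cast
  rfl

/-- the path lemma -/
lemma path (J : ℕ) : ∃ (c : ℝ) (m : ℕ), ∀ v : ℝ, ((2 : ℝ) ^ J + 2) / 2 ≤ v → v < ((2 : ℝ) ^ J + 3) / 2 →
    1 / 3 < c + v / 2 ^ m ∧ c + v / 2 ^ m < 1 ∧ N 1 (c + v / 2 ^ m) = N ((2 : ℝ) ^ J + 1) v := by
  induction J with
  | zero =>
    refine ⟨0, 1, fun v h1 h2 => ?_⟩
    norm_num at h1 h2 ⊢
    refine ⟨by linarith, by linarith, ?_⟩
    have h := N_up (k := 1) le_rfl (v := v / 2) (by push_cast; linarith)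
    push_cast at h
    rw [h, show 2 * (v / 2) = v by ring]
  | succ J ih =>
    obtain ⟨c, m, hcm⟩ := ih
    set D : ℕ := 2 ^ J + 1 with hD
    have hDr : (D : ℝ) = 2 ^ J + 1 := by rw [hD]; push_cast; ring
    have hJ1 : 1 ≤ 2 ^ J := Nat.one_le_two_pow
    have hD2 : 2 ≤ D := by omega
    have hD2r : (2 : ℝ) ≤ D := by exact_mod_cast hD2
    have hpow : (D : ℝ) + 1 ≤ 2 ^ D := by
      have : D < 2 ^ D := Nat.lt_two_pow_self
      exact_mod_cast this
    have hpp : (0 : ℝ) < 2 ^ D := by positivity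
    refine ⟨c + ((D : ℝ) + 1) / 2 / 2 ^ m, D + 1 + m, fun v' h1 h2 => ?_⟩
    have h1' : (D : ℝ) ≤ v' := by rw [hDr]; rw [pow_succ] at h1; linarith
    have h2' : v' < D + 1 / 2 := by rw [hDr]; rw [pow_succ] at h2; linarith
    set v : ℝ := ((D : ℝ) + 1) / 2 + v' / 2 ^ (D + 1) with hv
    have e1 : c + ((D : ℝ) + 1) / 2 / 2 ^ m + v' / 2 ^ (D + 1 + m) = c + v / 2 ^ m := by
      rw [hv, pow_add]; field_simp; ring
    have hv'0 : 0 < v' := by linarith
    have hs0 : 0 < v' / 2 ^ D := div_pos hv'0 hpp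
    have hs1 : v' / 2 ^ D < 1 := by rw [div_lt_one hpp]; linarith
    have e2 : v' / 2 ^ (D + 1) = v' / 2 ^ D / 2 := by rw [pow_succ]; field_simp
    have hva : ((2 : ℝ) ^ J + 2) / 2 ≤ v := by rw [hv, e2]; linarith
    have hvb : v < ((2 : ℝ) ^ J + 3) / 2 := by rw [hv, e2]; linarith
    obtain ⟨g1, g2, g3⟩ := hcm v hva hvb
    rw [e1]
    refine ⟨g1, g2, ?_⟩
    rw [g3, ← hDr]
    have hdown := (N_down (k := D) (v := v) (by
      rw [hv, e2]
      have : (1 : ℝ) / 6 / 2 ^ D < v' / 2 ^ D / 2 := by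
        rw [div_div, div_div, div_lt_div_iff₀ (by positivity) (by positivity)]
        nlinarith
      linarith)).2
    have e3 : 2 * v - D - 1 = v' / 2 ^ D := by rw [hv, e2]; ring
    rw [hdown, e3]
    have hclimb := N_climb (D - 1) (by omega) D (v' / 2 ^ D) (by
      intro i hi
      have hc : ((D - 1 : ℕ) : ℝ) = (D : ℝ) - 1 := by
        rw [Nat.cast_sub (by omega)]; norm_num
      rw [hc]
      rcases Nat.lt_or_ge i (D - 1) with h | h
      · have h4 : (2 : ℝ) ^ i * 4 ≤ 2 ^ D := by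
          calc (2 : ℝ) ^ i * 4 = 2 ^ (i + 2) := by rw [pow_add]; norm_num
            _ ≤ 2 ^ D := pow_le_pow_right₀ (by norm_num) (by omega)
        have h5 : 2 ^ i * (v' / 2 ^ D) ≤ v' / 4 := by
          rw [mul_div_assoc', div_le_div_iff₀ hpp (by norm_num)]
          nlinarith
        have h6 : (0 : ℝ) ≤ i := Nat.cast_nonneg i
        linarith
      · have hi' : i = D - 1 := by omega
        have h4 : (2 : ℝ) ^ i * 2 = 2 ^ D := by
          have hDD : D - 1 + 1 = D := by omega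
          rw [hi', ← pow_succ, hDD]
        have h5 : 2 ^ i * (v' / 2 ^ D) = v' / 2 := by
          rw [← h4]; field_simp
        rw [h5, hi', hc]
        linarith)
    have hc1 : ((D - 1 : ℕ) : ℝ) = (D : ℝ) - 1 := by
      rw [Nat.cast_sub (by omega)]; norm_num
    rw [hc1] at hclimb
    rw [hclimb, show 2 ^ D * (v' / 2 ^ D) = v' by field_simp]
    congr 1
    rw [Nat.cast_add, hc1, hDr, pow_succ]
    ring

lemma odd_step (n : ℕ) (h : 0 < volume (W n)) : 0 < volume (W (2 * n + 1)) := by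
  -- choose J
  obtain ⟨J, hJ⟩ : ∃ J : ℕ, ENNReal.ofReal (8 / 3 * (1 / 2) ^ J) < volume (W n) := by
    have ht : Tendsto (fun J : ℕ => ENNReal.ofReal (8 / 3 * (1 / 2) ^ J)) atTop (𝓝 0) := by
      have := (tendsto_pow_atTop_nhds_zero_of_lt_one (r := (1 / 2 : ℝ)) (by norm_num)
        (by norm_num)).const_mul (8 / 3)
      rw [mul_zero] at this
      have h2 := ENNReal.tendsto_ofReal this
      rwa [ENNReal.ofReal_zero] at h2
    exact (ht.eventually (gt_mem_nhds h)).exists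
  set D : ℕ := 2 ^ J + 1 with hD
  have hDr : (D : ℝ) = 2 ^ J + 1 := by rw [hD]; push_cast; ring
  have hJ1 : 1 ≤ 2 ^ J := Nat.one_le_two_pow
  have hJ1r : (1 : ℝ) ≤ 2 ^ J := by exact_mod_cast hJ1
  have hD2 : 2 ≤ D := by omega
  set K : ℕ := D - 1 + D with hK
  have hc1 : ((D - 1 : ℕ) : ℝ) = (D : ℝ) - 1 := by
    rw [Nat.cast_sub (by omega)]; norm_num
  have hKr : (K : ℝ) = 2 * 2 ^ J + 1 := by rw [hK]; push_cast; rw [hc1, hDr]; ring
  -- the good part
  set F : Set ℝ := {w | w ∈ W n ∧ (2 ^ J / 4) * w ∉ BadU (K + J)} with hF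
  have hFpos : 0 < volume F := by
    have hsub : W n ⊆ F ∪ (fun w : ℝ => (2 ^ J / 4) * w) ⁻¹' BadU (K + J) := by
      intro w hw
      by_cases hb : (2 ^ J / 4) * w ∈ BadU (K + J)
      · exact Or.inr hb
      · exact Or.inl ⟨hw, hb⟩
    by_contra hcon
    rw [not_lt, nonpos_iff_eq_zero] at hcon
    have h1 := (measure_mono (μ := volume) hsub).trans (measure_union_le _ _)
    rw [hcon, zero_add, Real.volume_preimage_mul_left (by positivity)] at h1
    have h2 : ENNReal.ofReal |((2 : ℝ) ^ J / 4)⁻¹| * volume (BadU (K + J)) ≤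
        ENNReal.ofReal (8 / 3 * (1 / 2) ^ J) := by
      calc _ ≤ ENNReal.ofReal |((2 : ℝ) ^ J / 4)⁻¹| * ENNReal.ofReal (2 / 3 * (1 - 1 / 2 ^ (K + J))) := by
            gcongr; exact volume_BadU _
        _ = ENNReal.ofReal (|((2 : ℝ) ^ J / 4)⁻¹| * (2 / 3 * (1 - 1 / 2 ^ (K + J)))) := by
            rw [ENNReal.ofReal_mul (abs_nonneg _)]
        _ ≤ _ := by
            apply ENNReal.ofReal_le_ofReal
            rw [abs_of_pos (by positivity)]
            have h3 : (0 : ℝ) < 1 / 2 ^ (K + J) := by positivity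
            have h4 : ((2 : ℝ) ^ J / 4)⁻¹ = 4 * (1 / 2) ^ J := by
              rw [one_div, inv_pow]; field_simp
            rw [h4]
            have h5 : (0 : ℝ) < (1 / 2) ^ J := by positivity
            nlinarith
    exact absurd (h1.trans h2) (not_le.2 hJ)
  obtain ⟨c, m, hcm⟩ := path J
  have hpp : (0 : ℝ) < 2 ^ D := by positivity
  have hpow : (D : ℝ) + 1 ≤ 2 ^ D := by
    have : D < 2 ^ D := Nat.lt_two_pow_self
    exact_mod_cast this
  -- the affine map
  refine pos_of_affine (A := F) (a := 1 / 4 / 2 ^ D / 2 / 2 ^ m) (b := c + ((D : ℝ) + 1) / 2 / 2 ^ m)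
    (by positivity) ?_ hFpos
  rintro w ⟨⟨⟨hw1, hw2⟩, hwn⟩, hwb⟩ hw
  set τ : ℝ := w / 4 with hτ
  set s : ℝ := τ / 2 ^ D with hs
  set v : ℝ := ((D : ℝ) + 1) / 2 + s / 2 with hv
  have hτ0 : 1 / 12 < τ := by rw [hτ]; linarith
  have hτ1 : τ < 1 / 3 := by rw [hτ]; linarith
  have hs0 : 0 < s := by positivity
  have hs1 : s < 1 := by
    rw [hs, div_lt_one hpp]
    have : (0 : ℝ) ≤ D := Nat.cast_nonneg D
    linarith
  have e1 : 1 / 4 / 2 ^ D / 2 / 2 ^ m * w + (c + ((D : ℝ) + 1) / 2 / 2 ^ m) = c + v / 2 ^ m := by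
    rw [hv, hs, hτ]; ring
  rw [e1]
  obtain ⟨g1, g2, g3⟩ := hcm v (by rw [hv, hDr]; linarith) (by rw [hv, hDr]; linarith)
  refine ⟨⟨g1, by linarith⟩, ?_⟩
  rw [g3, ← hDr, N_rec (by rw [hv]; intro h'; linarith)]
  -- the top part
  have htop : N ((D : ℝ) + 1) (2 * v) = 2 * n := by
    have h1 := N_top_iter D s hs0
    rw [show (2 : ℝ) ^ D * s = τ by rw [hs]; field_simp] at h1
    have h2 := double hw1 hw
    rw [hwn, ← hτ] at h2
    rw [h2] at h1
    rw [← h1]
    push_cast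
    congr 1
    rw [hv]; ring
  have hmain : N ((D : ℝ) - 1) (2 * v - D - 1) = 1 := by
    rw [show 2 * v - D - 1 = s by rw [hv]; ring, ← hc1]
    rw [N_climb (D - 1) (by omega) D s (by
      intro i hi
      have h4 : (2 : ℝ) ^ i ≤ 2 ^ D := pow_le_pow_right₀ (by norm_num) hi.le
      have h5 : 2 ^ i * s ≤ τ := by
        rw [hs, mul_div_assoc', div_le_iff₀ hpp]
        nlinarith
      have h6 : (0 : ℝ) ≤ i := Nat.cast_nonneg i
      rw [hc1, hDr]
      linarith), show (2 : ℝ) ^ D * s = τ by rw [hs]; field_simp, ← hK]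
    have hKJ : N K τ = N (K + J : ℕ) (2 ^ J * τ) := by
      apply N_climb K (by omega) J τ
      intro i hi
      have h4 : (2 : ℝ) ^ i ≤ 2 ^ J := pow_le_pow_right₀ (by norm_num) hi.le
      have h6 : (0 : ℝ) ≤ i := Nat.cast_nonneg i
      rw [hKr]
      nlinarith
    rw [hKJ]
    apply N_eq_one (by omega) (by positivity)
    · push_cast
      rw [hKr]
      have h6 : (0 : ℝ) ≤ J := Nat.cast_nonneg J
      nlinarith
    · rw [hτ, show (2 : ℝ) ^ J * (w / 4) = (2 ^ J / 4) * w by ring]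
      exact hwb
  rw [htop, hmain]
  push_cast
  rfl

lemma all (n : ℕ) : 1 ≤ n → 0 < volume (W n) := by
  induction n using Nat.strong_induction_on with
  | _ n ih =>
    intro hn
    rcases Nat.lt_or_ge 1 n with h | h
    · rcases Nat.even_or_odd' n with ⟨k, hk | hk⟩
      · rw [hk]; exact even_step k (ih k (by omega) (by omega))
      · rw [hk]; exact odd_step k (ih k (by omega) (by omega))
    · have : n = 1 := by omega
      rw [this]; exact base

/-- **Positive answer to Q2.** For every `n ≥ 1` the set `S_{2n}` of levels `y ∈ [0,2/3]` whose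
level set under the Takagi function has exactly `2n` elements has positive Lebesgue measure. -/
theorem result : ∀ n : ℕ, 1 ≤ n → 0 < volume (S n) := by
  intro n hn
  refine pos_of_affine (a := 1 / 2) (b := 0) (by norm_num) ?_ (all n hn)
  rintro w ⟨⟨h1, h2⟩, h3⟩ hw
  rw [add_zero]
  refine ⟨⟨by linarith, by linarith⟩, ?_⟩
  have h4 := N_zero (y := 1 / 2 * w) (by intro h; apply hw; linarith)
  rw [show 2 * (1 / 2 * w) = w by ring, h3] at h4
  have h5 : L (1 / 2 * w) = Sol 0 (1 / 2 * w) := by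
    ext x
    simp [L, Sol]
  rw [h5]
  exact h4

end Pool.Agent.Results.MP_f54a22_an.AllCardinalities
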